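import Mathlib

/-! Conic bundles (project CB): local conditions at the primes of a number field.
The conic `x^2 - a y^2 = b z^2`. -/

namespace Pool.Agent.Helper16.CB

open NumberField

/-- the ternary form attached to `a, b` -/
def Qf {R : Type*} [CommRing R] (a b : R) (v : R × R × R) : R :=
  v.1 ^ 2 - a * v.2.1 ^ 2 - b * v.2.2 ^ 2

/-- `a` has valuation exactly `n` at the ideal `q` -/
def Val {R : Type*} [CommRing R] (q : Ideal R) (a : R) (n : ℕ) : Prop :=
  a ∈ q ^ n ∧ a ∉ q ^ (n + 1)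

/-- the local condition at the prime `q` for the pair `a, b` -/
def LC {R : Type*} [CommRing R] (q : Ideal R) (a b : R) : Prop :=
  ∃ α β : ℕ, Val q a α ∧ Val q b β ∧
    ((Even α ∧ Even β) ∨
      (¬ Even α ∧ Even β ∧ ∃ h, b - h ^ 2 ∈ q ^ (β + 1)) ∨
      (Even α ∧ ¬ Even β ∧ ∃ h, a - h ^ 2 ∈ q ^ (α + 1)) ∨
      (¬ Even α ∧ ¬ Even β ∧ ∃ h, - (a * b) - h ^ 2 ∈ q ^ (α + β + 1)))

/-- all archimedean absolute values of `a` are comparable -/
def Bal {L : Type*} [Field L] [NumberField L] (c : ℝ) (a : 𝓞 L) : Prop :=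
  ∀ φ : L →+* ℂ,
    ‖φ a‖ ≤ c * (Ideal.absNorm (Ideal.span {a}) : ℝ) ^ (1 / (Module.finrank ℚ L : ℝ)) ∧
    (Ideal.absNorm (Ideal.span {a}) : ℝ) ^ (1 / (Module.finrank ℚ L : ℝ)) ≤ c * ‖φ a‖

/-- primes `p` of `K` at which `a, b` are harmless over a field with a primitive `2 ^ J`-th root of
unity: `N p` is odd and not congruent to one modulo `2 ^ J`, or the local condition holds -/
def Harm {K : Type*} [Field K] [NumberField K] (J : ℕ) (a b : 𝓞 K) (p : Ideal (𝓞 K)) : Prop :=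
  (Odd (Ideal.absNorm p) ∧ ¬ Ideal.absNorm p ≡ 1 [MOD 2 ^ J]) ∨ LC p a b

end Pool.Agent.Helper16.CB
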