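import Pool.Agent.Helper16.CB.Defs

/-! A1 (project CB). -/

namespace Pool.Agent.Helper16.CB

/-- A1 -/
theorem iso_of {F : Type*} [Field F] [CharZero F] {a b w ρ : F} (ha : a ≠ 0)
    {v : F × F × F} (hv : v ≠ 0) (h : Qf a b v = a * b * w) (hρ : ρ ^ 2 = - w) :
    ∃ X Y : F, X ^ 2 - a * Y ^ 2 = b := by
  have key : ∀ c : F, c ^ 2 = a → ∃ X Y : F, X ^ 2 - a * Y ^ 2 = b := by
    intro c hc
    have hc0 : c ≠ 0 := by
      rintro rfl
      apply ha
      rw [← hc]
      ring
    refine ⟨(b + 1) / 2, (b - 1) / (2 * c), ?_⟩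
    rw [← hc]
    field_simp
    ring
  obtain ⟨x, y, z⟩ := v
  have h' : x ^ 2 - a * y ^ 2 = b * (z ^ 2 - a * ρ ^ 2) := by
    have h1 : x ^ 2 - a * y ^ 2 - b * z ^ 2 = a * b * w := h
    rw [hρ]
    linear_combination h1
  by_cases hN : z ^ 2 - a * ρ ^ 2 = 0
  · by_cases hr : ρ = 0
    · have hz : z = 0 := by
        rw [hr] at hN
        have : z ^ 2 = 0 := by linear_combination hN
        exact pow_eq_zero_iff (two_ne_zero) |>.1 this
      have hxy : x ^ 2 - a * y ^ 2 = 0 := by
        rw [h', hN, mul_zero]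
      by_cases hy : y = 0
      · exfalso
        apply hv
        have hx : x ^ 2 = 0 := by
          rw [hy] at hxy
          linear_combination hxy
        have hx' : x = 0 := pow_eq_zero_iff (two_ne_zero) |>.1 hx
        rw [hx', hy, hz]
        rfl
      · apply key (x / y)
        rw [div_pow]
        field_simp
        linear_combination hxy
    · apply key (z / ρ)
      rw [div_pow]
      field_simp
      linear_combination hN
  · refine ⟨(x * z + a * y * ρ) / (z ^ 2 - a * ρ ^ 2), (x * ρ + y * z) / (z ^ 2 - a * ρ ^ 2), ?_⟩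
    field_simp
    linear_combination (z ^ 2 - a * ρ ^ 2) * h'

end Pool.Agent.Helper16.CB
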