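import Pool.Agent.Helper16.CB.Val

/-! A2 (project CB): local subgroups. -/

namespace Pool.Agent.Helper16.CB

variable {R : Type*} [CommRing R]

/-- the subgroup `x - g z ∈ I₁, y - g' z ∈ I₂, z ∈ I₃` -/
def sub3 (I₁ I₂ I₃ : Ideal R) (g g' : R) : AddSubgroup (R × R × R) where
  carrier := {v | v.1 - g * v.2.2 ∈ I₁ ∧ v.2.1 - g' * v.2.2 ∈ I₂ ∧ v.2.2 ∈ I₃}
  zero_mem' := by simp
  add_mem' := by
    rintro a b ⟨h1, h2, h3⟩ ⟨k1, k2, k3⟩
    refine ⟨?_, ?_, add_mem h3 k3⟩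
    · have := add_mem h1 k1
      convert this using 1
      simp only [Prod.fst_add, Prod.snd_add]
      ring
    · have := add_mem h2 k2
      convert this using 1
      simp only [Prod.fst_add, Prod.snd_add]
      ring
  neg_mem' := by
    rintro a ⟨h1, h2, h3⟩
    refine ⟨?_, ?_, neg_mem h3⟩
    · have := neg_mem h1
      convert this using 1
      simp only [Prod.fst_neg, Prod.snd_neg]
      ring
    · have := neg_mem h2
      convert this using 1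
      simp only [Prod.fst_neg, Prod.snd_neg]
      ring

theorem mem_sub3 {I₁ I₂ I₃ : Ideal R} {g g' : R} {v : R × R × R} :
    v ∈ sub3 I₁ I₂ I₃ g g' ↔
      v.1 - g * v.2.2 ∈ I₁ ∧ v.2.1 - g' * v.2.2 ∈ I₂ ∧ v.2.2 ∈ I₃ := Iff.rfl

/-- the map whose kernel is `sub3` -/
def hom3 (I₁ I₂ I₃ : Ideal R) (g g' : R) :
    R × R × R →+ (R ⧸ I₁) × (R ⧸ I₂) × (R ⧸ I₃) where
  toFun v := (Ideal.Quotient.mk I₁ (v.1 - g * v.2.2), Ideal.Quotient.mk I₂ (v.2.1 - g' * v.2.2),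
    Ideal.Quotient.mk I₃ v.2.2)
  map_zero' := by simp
  map_add' a b := by
    simp only [Prod.fst_add, Prod.snd_add, Prod.mk_add_mk, map_add, map_sub, map_mul]
    ring_nf

theorem ker_hom3 (I₁ I₂ I₃ : Ideal R) (g g' : R) :
    (hom3 I₁ I₂ I₃ g g').ker = sub3 I₁ I₂ I₃ g g' := by
  ext v
  rw [AddMonoidHom.mem_ker, mem_sub3]
  show ((Ideal.Quotient.mk I₁ (v.1 - g * v.2.2), Ideal.Quotient.mk I₂ (v.2.1 - g' * v.2.2),
    Ideal.Quotient.mk I₃ v.2.2) : (R ⧸ I₁) × (R ⧸ I₂) × (R ⧸ I₃)) = 0 ↔ _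
  rw [Prod.ext_iff, Prod.ext_iff]
  simp only [Prod.fst_zero, Prod.snd_zero, Ideal.Quotient.eq_zero_iff_mem]

theorem index_sub3 [IsDedekindDomain R] [Module.Free ℤ R] [Module.Finite ℤ R]
    {I₁ I₂ I₃ : Ideal R} (h1 : I₁ ≠ ⊥) (h2 : I₂ ≠ ⊥) (h3 : I₃ ≠ ⊥) (g g' : R) :
    (sub3 I₁ I₂ I₃ g g').index ≠ 0 ∧ (sub3 I₁ I₂ I₃ g g').index ≤
      Ideal.absNorm I₁ * Ideal.absNorm I₂ * Ideal.absNorm I₃ := by
  have f1 : Finite (R ⧸ I₁) := Ideal.finiteQuotientOfFreeOfNeBot _ h1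
  have f2 : Finite (R ⧸ I₂) := Ideal.finiteQuotientOfFreeOfNeBot _ h2
  have f3 : Finite (R ⧸ I₃) := Ideal.finiteQuotientOfFreeOfNeBot _ h3
  rw [← ker_hom3, AddSubgroup.index_ker]
  refine ⟨Nat.card_pos.ne', ?_⟩
  have h : Nat.card ((hom3 I₁ I₂ I₃ g g').range) ≤
      Nat.card ((R ⧸ I₁) × (R ⧸ I₂) × (R ⧸ I₃)) :=
    Nat.card_le_card_of_injective _ Subtype.val_injective
  rw [Nat.card_prod, Nat.card_prod, ← mul_assoc] at h
  exact h

theorem loc_sub_even [IsDedekindDomain R] [Module.Free ℤ R] [Module.Finite ℤ R] {q : Ideal R}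
    (hq0 : q ≠ ⊥) {a b : R} {m l : ℕ} (ha : Val q a (2 * m)) (hb : Val q b (2 * l)) :
    ∃ G : AddSubgroup (R × R × R), G.index ≠ 0 ∧
      G.index ≤ Ideal.absNorm q ^ (2 * m + 2 * l) ∧
      ∀ v ∈ G, Qf a b v ∈ q ^ (2 * m + 2 * l) := by
  have hp : ∀ k, q ^ k ≠ ⊥ := fun k => pow_ne_zero k hq0
  obtain ⟨h1, h2⟩ := index_sub3 (hp (m + l)) (hp l) (hp m) (0 : R) 0
  refine ⟨_, h1, h2.trans ?_, ?_⟩
  · rw [map_pow, map_pow, map_pow, ← pow_add, ← pow_add]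
    apply le_of_eq
    congr 1
    ring
  · rintro v hv
    rw [mem_sub3] at hv
    simp only [zero_mul, sub_zero] at hv
    obtain ⟨k1, k2, k3⟩ := hv
    unfold Qf
    refine sub_mem (sub_mem (sq_mem_pow k1 (by omega)) ?_) ?_
    · exact mul_mem_pow ha.1 (sq_mem_pow k2 le_rfl) (by omega)
    · exact mul_mem_pow hb.1 (sq_mem_pow k3 le_rfl) (by omega)

theorem loc_sub_odd_even [IsDedekindDomain R] [Module.Free ℤ R] [Module.Finite ℤ R]
    {q : Ideal R} (hq : q.IsPrime) (hq0 : q ≠ ⊥) {a b h : R} {m l : ℕ}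
    (ha : Val q a (2 * m + 1)) (hb : Val q b (2 * l)) (hh : b - h ^ 2 ∈ q ^ (2 * l + 1)) :
    ∃ G : AddSubgroup (R × R × R), G.index ≠ 0 ∧
      G.index ≤ Ideal.absNorm q ^ (2 * m + 1 + 2 * l) ∧
      ∀ v ∈ G, Qf a b v ∈ q ^ (2 * m + 1 + 2 * l) := by
  have hp : ∀ k, q ^ k ≠ ⊥ := fun k => pow_ne_zero k hq0
  obtain ⟨h1, h2⟩ := index_sub3 (hp (m + l + 1)) (hp l) (hp m) h 0
  have hhl : h ∈ q ^ l := by
    apply mem_pow_of_sq_mem hq hq0
    exact (hb.congr hh).1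
  refine ⟨_, h1, h2.trans ?_, ?_⟩
  · rw [map_pow, map_pow, map_pow, ← pow_add, ← pow_add]
    apply le_of_eq
    congr 1
    ring
  · rintro ⟨x, y, z⟩ hv
    rw [mem_sub3] at hv
    simp only [zero_mul, sub_zero] at hv
    obtain ⟨k1, k2, k3⟩ := hv
    have e : Qf a b (x, y, z) = (x - h * z) * (x - h * z + 2 * (h * z)) - a * y ^ 2 -
        (b - h ^ 2) * z ^ 2 := by
      unfold Qf
      ring
    rw [e]
    have hhz : h * z ∈ q ^ (m + l) := mul_mem_pow hhl k3 (by omega)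
    refine sub_mem (sub_mem ?_ ?_) ?_
    · refine mul_mem_pow (n := m + l) k1 (add_mem ?_ ?_) (by omega)
      · exact Ideal.pow_le_pow_right (by omega) k1
      · exact Ideal.mul_mem_left _ _ hhz
    · exact mul_mem_pow ha.1 (sq_mem_pow k2 le_rfl) (by omega)
    · exact mul_mem_pow hh (sq_mem_pow k3 le_rfl) (by omega)

theorem loc_sub_odd_odd [IsDedekindDomain R] [Module.Free ℤ R] [Module.Finite ℤ R]
    {q : Ideal R} (hq : q.IsPrime) (hq0 : q ≠ ⊥) {a b h : R} {m l : ℕ} (hml : m ≤ l)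
    (ha : Val q a (2 * m + 1)) (hb : Val q b (2 * l + 1))
    (hh : - (a * b) - h ^ 2 ∈ q ^ (2 * m + 1 + (2 * l + 1) + 1)) :
    ∃ G : AddSubgroup (R × R × R), G.index ≠ 0 ∧
      G.index ≤ Ideal.absNorm q ^ (2 * m + 1 + (2 * l + 1)) ∧
      ∀ v ∈ G, Qf a b v ∈ q ^ (2 * m + 1 + (2 * l + 1)) := by
  have hp : ∀ k, q ^ k ≠ ⊥ := fun k => pow_ne_zero k hq0
  have hhl : h ∈ q ^ (m + l + 1) := by
    apply mem_pow_of_sq_mem hq hq0
    have := ((ha.mul hq hq0 hb).neg.congr hh).1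
    exact Ideal.pow_le_pow_right (by omega) this
  -- `h` is a multiple of `a` modulo a high power of `q`
  have hsup : q ^ (2 * m + 1) ≤ Ideal.span {a} ⊔ q ^ (m + l + 2) := by
    have h1 : Ideal.span {a} ⊔ q ^ (m + l + 2) ∣ q ^ (m + l + 2) := by
      rw [Ideal.dvd_iff_le]
      exact le_sup_right
    rw [dvd_prime_pow (Ideal.prime_of_isPrime hq0 hq)] at h1
    obtain ⟨i, hi, hassoc⟩ := h1
    have hJ : Ideal.span {a} ⊔ q ^ (m + l + 2) = q ^ i := associated_iff_eq.1 hassoc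
    have h2 : a ∈ q ^ i := by
      rw [← hJ]
      exact Ideal.mem_sup_left (Ideal.mem_span_singleton_self a)
    rw [hJ]
    exact Ideal.pow_le_pow_right (ha.le_of_mem h2)
  have hex : ∃ g : R, h - a * g ∈ q ^ (m + l + 2) := by
    have h1 : h ∈ Ideal.span {a} ⊔ q ^ (m + l + 2) :=
      hsup (Ideal.pow_le_pow_right (by omega) hhl)
    rw [Submodule.mem_sup] at h1
    obtain ⟨y, hy, z, hz, hyz⟩ := h1
    obtain ⟨g, rfl⟩ := Ideal.mem_span_singleton.1 hy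
    refine ⟨g, ?_⟩
    rw [← hyz]
    simpa using hz
  obtain ⟨g, hg⟩ := hex
  obtain ⟨h1, h2⟩ := index_sub3 (hp (m + l + 1)) (hp (l + 1)) (hp m) (0 : R) g
  refine ⟨_, h1, h2.trans ?_, ?_⟩
  · rw [map_pow, map_pow, map_pow, ← pow_add, ← pow_add]
    apply le_of_eq
    congr 1
    ring
  · rintro ⟨x, y, z⟩ hv
    rw [mem_sub3] at hv
    simp only [zero_mul, sub_zero] at hv
    obtain ⟨k1, k2, k3⟩ := hv
    have hmain : a * y ^ 2 + b * z ^ 2 ∈ q ^ (2 * m + 1 + (2 * l + 1)) := by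
      apply ha.mem_of_mul_mem hq hq0
      have e : a * (a * y ^ 2 + b * z ^ 2) =
          (a * (y - g * z) - (h - a * g) * z) *
            (a * (y - g * z) - (h - a * g) * z + 2 * (h * z)) -
          (- (a * b) - h ^ 2) * z ^ 2 := by ring
      rw [e]
      have hhz : h * z ∈ q ^ (2 * m + l + 1) := mul_mem_pow hhl k3 (by omega)
      have ht : a * (y - g * z) - (h - a * g) * z ∈ q ^ (2 * m + l + 2) :=
        sub_mem (mul_mem_pow ha.1 k2 (by omega)) (mul_mem_pow hg k3 (by omega))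
      refine sub_mem ?_ ?_
      · refine mul_mem_pow (n := 2 * m + l + 1) ht (add_mem ?_ ?_) (by omega)
        · exact Ideal.pow_le_pow_right (by omega) ht
        · exact Ideal.mul_mem_left _ _ hhz
      · exact mul_mem_pow hh (sq_mem_pow k3 le_rfl) (by omega)
    have e : Qf a b (x, y, z) = x ^ 2 - (a * y ^ 2 + b * z ^ 2) := by
      unfold Qf
      ring
    rw [e]
    exact sub_mem (sq_mem_pow k1 (by omega)) hmain

/-- exchange of the roles of `a` and `b` -/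
theorem loc_sub_swap {q : Ideal R} {a b : R} {N n : ℕ}
    (h : ∃ G : AddSubgroup (R × R × R), G.index ≠ 0 ∧ G.index ≤ N ∧
      ∀ v ∈ G, Qf b a v ∈ q ^ n) :
    ∃ G : AddSubgroup (R × R × R), G.index ≠ 0 ∧ G.index ≤ N ∧
      ∀ v ∈ G, Qf a b v ∈ q ^ n := by
  obtain ⟨G, h1, h2, h3⟩ := h
  let s : (R × R × R) ≃+ (R × R × R) :=
    { toFun := fun v => (v.1, v.2.2, v.2.1)
      invFun := fun v => (v.1, v.2.2, v.2.1)
      left_inv := fun v => rfl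
      right_inv := fun v => rfl
      map_add' := fun v w => rfl }
  have hi : (G.comap (s : (R × R × R) →+ (R × R × R))).index = G.index :=
    AddSubgroup.index_comap_of_surjective G s.surjective
  refine ⟨G.comap (s : (R × R × R) →+ (R × R × R)), ?_, ?_, ?_⟩
  · rw [hi]
    exact h1
  · rw [hi]
    exact h2
  · rintro ⟨x, y, z⟩ hv
    have := h3 (x, z, y) hv
    have e : Qf a b (x, y, z) = Qf b a (x, z, y) := by
      unfold Qf
      ring
    rw [e]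
    exact this

/-- A2 -/
theorem loc_sub [IsDedekindDomain R] [Module.Free ℤ R]
    [Module.Finite ℤ R] {q : Ideal R} (hq : q.IsPrime) (hq0 : q ≠ ⊥) {a b : R} (h : LC q a b) :
    ∃ (α β : ℕ) (G : AddSubgroup (R × R × R)), Val q a α ∧ Val q b β ∧
      G.index ≠ 0 ∧ G.index ≤ Ideal.absNorm q ^ (α + β) ∧
      ∀ v ∈ G, Qf a b v ∈ q ^ (α + β) := by
  obtain ⟨α, β, ha, hb, h⟩ := h
  rcases h with ⟨hα, hβ⟩ | ⟨hα, hβ, t, ht⟩ | ⟨hα, hβ, t, ht⟩ | ⟨hα, hβ, t, ht⟩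
  · obtain ⟨m, rfl⟩ := hα.exists_two_nsmul
    obtain ⟨l, rfl⟩ := hβ.exists_two_nsmul
    rw [smul_eq_mul] at *
    obtain ⟨G, h1, h2, h3⟩ := loc_sub_even hq0 ha hb
    exact ⟨_, _, G, ha, hb, h1, h2, h3⟩
  · obtain ⟨m, rfl⟩ := Nat.not_even_iff_odd.1 hα
    obtain ⟨l, rfl⟩ := hβ.exists_two_nsmul
    rw [smul_eq_mul] at *
    obtain ⟨G, h1, h2, h3⟩ := loc_sub_odd_even hq hq0 ha hb ht
    exact ⟨_, _, G, ha, hb, h1, h2, h3⟩
  · obtain ⟨m, rfl⟩ := hα.exists_two_nsmul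
    obtain ⟨l, rfl⟩ := Nat.not_even_iff_odd.1 hβ
    rw [smul_eq_mul] at *
    obtain ⟨G, h1, h2, h3⟩ := loc_sub_swap (loc_sub_odd_even hq hq0 hb ha ht)
    rw [add_comm (2 * l + 1)] at h2 h3
    exact ⟨_, _, G, ha, hb, h1, h2, h3⟩
  · obtain ⟨m, rfl⟩ := Nat.not_even_iff_odd.1 hα
    obtain ⟨l, rfl⟩ := Nat.not_even_iff_odd.1 hβ
    rcases le_total m l with hml | hml
    · obtain ⟨G, h1, h2, h3⟩ := loc_sub_odd_odd hq hq0 hml ha hb ht
      exact ⟨_, _, G, ha, hb, h1, h2, h3⟩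
    · rw [mul_comm a b, add_comm (2 * m + 1) (2 * l + 1)] at ht
      obtain ⟨G, h1, h2, h3⟩ := loc_sub_swap (loc_sub_odd_odd hq hq0 hml hb ha ht)
      rw [add_comm (2 * l + 1) (2 * m + 1)] at h2 h3
      exact ⟨_, _, G, ha, hb, h1, h2, h3⟩

end Pool.Agent.Helper16.CB
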