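import Pool.Agent.Helper16.CB.Val
import Pool.Agent.Helper16.CB.Iso
import Pool.Agent.Helper16.CB.LocSub
import Pool.Agent.Helper28.CB.Bal
import Pool.Agent.Helper33.CB.GlobSub
import Pool.Agent.Helper69.CB.Mink
import Pool.Agent.Helper79.CB.LcMul
import Pool.Agent.Helper3.CB.Lc

/-! A9, A10 (project CB): the algebraic block. -/

namespace Pool.Agent.Helper16.CB

open NumberField

/-- a global form of A2, A3, A4, A5 over one number field -/
theorem alg_one (L : Type*) [Field L] [NumberField L] :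
    ∃ W : Finset (𝓞 L), ∀ a b : 𝓞 L, a ≠ 0 → b ≠ 0 →
      (∀ q : Ideal (𝓞 L), q.IsPrime → q ≠ ⊥ → a * b ∈ q → LC q a b) →
      ∃ w ∈ W, ∀ (F : Type) [Field F] [Algebra L F] (ρ : F),
        ρ ^ 2 = - algebraMap L F (w : L) →
        ∃ X Y : F, X ^ 2 - algebraMap L F (a : L) * Y ^ 2 = algebraMap L F (b : L) := by
  obtain ⟨c, hc, hbal⟩ := Pool.Agent.Helper28.CB.exists_bal L
  obtain ⟨W, hW⟩ := Pool.Agent.Helper69.CB.mink L c
  refine ⟨W, ?_⟩
  intro a b ha hb hlc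
  obtain ⟨η, hη, hBη⟩ := hbal a ha
  obtain ⟨θ, hθ, hBθ⟩ := hbal b hb
  have ha' : a * η ^ 2 ≠ 0 := mul_ne_zero ha (pow_ne_zero 2 hη)
  have hb' : b * θ ^ 2 ≠ 0 := mul_ne_zero hb (pow_ne_zero 2 hθ)
  obtain ⟨G, hG0, hG1, hG2⟩ := Pool.Agent.Helper33.CB.glob_sub ha' hb' (by
    intro q hq hq0 _
    refine Pool.Agent.Helper79.CB.lc_mul hq hq0 hη hθ ?_
    by_cases hab : a * b ∈ q
    · exact hlc q hq hq0 hab
    · refine lc_of_notMem ?_ ?_
      · intro h
        exact hab (q.mul_mem_right _ h)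
      · intro h
        exact hab (q.mul_mem_left _ h))
  obtain ⟨v, hvG, hv0, w, hw, hQ⟩ := hW _ _ ha' hb' hBη hBθ G hG0 hG1 hG2
  refine ⟨w, hw, ?_⟩
  intro F _ _ ρ hρ
  have : CharZero F := charZero_of_injective_algebraMap (algebraMap L F).injective
  -- the map `𝓞 L → F`
  let ψ : 𝓞 L →+* F := (algebraMap L F).comp (algebraMap (𝓞 L) L)
  have hψ : Function.Injective ψ :=
    (algebraMap L F).injective.comp (FaithfulSMul.algebraMap_injective (𝓞 L) L)
  have hψ0 : ∀ x : 𝓞 L, x ≠ 0 → ψ x ≠ 0 := fun x hx h => hx (hψ (by rw [h, map_zero]))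
  have h1 : Qf (ψ (a * η ^ 2)) (ψ (b * θ ^ 2)) (ψ v.1, ψ v.2.1, ψ v.2.2) =
      ψ (a * η ^ 2) * ψ (b * θ ^ 2) * ψ w := by
    have := congrArg ψ hQ
    unfold Qf at this ⊢
    simpa only [map_sub, map_mul, map_pow] using this
  have h2 : ((ψ v.1, ψ v.2.1, ψ v.2.2) : F × F × F) ≠ 0 := by
    intro h
    apply hv0
    rw [Prod.ext_iff, Prod.ext_iff] at h
    obtain ⟨k1, k2, k3⟩ := h
    have e1 : v.1 = 0 := hψ (by rw [map_zero]; exact k1)
    have e2 : v.2.1 = 0 := hψ (by rw [map_zero]; exact k2)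
    have e3 : v.2.2 = 0 := hψ (by rw [map_zero]; exact k3)
    exact Prod.ext e1 (Prod.ext e2 e3)
  obtain ⟨X, Y, hXY⟩ := iso_of (ρ := ρ) (hψ0 _ ha') h2 h1 hρ
  have hηF := hψ0 η hη
  have hθF := hψ0 θ hθ
  refine ⟨X / ψ θ, ψ η * Y / ψ θ, ?_⟩
  have e1 : ψ (a * η ^ 2) = algebraMap L F (a : L) * ψ η ^ 2 := by
    rw [map_mul, map_pow]
    rfl
  have e2 : ψ (b * θ ^ 2) = algebraMap L F (b : L) * ψ θ ^ 2 := by
    rw [map_mul, map_pow]
    rfl
  rw [e1, e2] at hXY
  field_simp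
  linear_combination hXY

/-- A9 -/
theorem alg (K L : Type*) [Field K] [NumberField K] [Field L] [NumberField L] [Algebra K L]
    {J : ℕ} {ζ : L} (hζ : IsPrimitiveRoot ζ (2 ^ J)) :
    ∃ W : Finset (𝓞 L), ∀ a b : 𝓞 K, a ≠ 0 → b ≠ 0 →
      (∀ p : Ideal (𝓞 K), p.IsPrime → p ≠ ⊥ → a * b ∈ p → Harm J a b p) →
      ∃ w ∈ W, ∀ (F : Type) [Field F] [Algebra L F] (ρ : F),
        ρ ^ 2 = - algebraMap L F (w : L) →
        ∃ X Y : F, X ^ 2 - algebraMap L F (algebraMap K L a) * Y ^ 2 =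
          algebraMap L F (algebraMap K L b) := by
  obtain ⟨W, hW⟩ := alg_one L
  refine ⟨W, ?_⟩
  intro a b ha hb hharm
  have hinj : Function.Injective (algebraMap (𝓞 K) (𝓞 L)) :=
    FaithfulSMul.algebraMap_injective (𝓞 K) (𝓞 L)
  have h0 : ∀ x : 𝓞 K, x ≠ 0 → algebraMap (𝓞 K) (𝓞 L) x ≠ 0 :=
    fun x hx h => hx (hinj (by rw [h, map_zero]))
  obtain ⟨w, hw, hF⟩ := hW _ _ (h0 a ha) (h0 b hb) (by
    intro q hq hq0 hab
    apply Pool.Agent.Helper3.CB.lc_of_harm hζ ha hb hq hq0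
    rw [← map_mul] at hab
    refine hharm _ (hq.comap _) ?_ hab
    intro h
    have hcomap : (a * b) ∈ q.comap (algebraMap (𝓞 K) (𝓞 L)) := hab
    rw [h, Ideal.mem_bot] at hcomap
    exact mul_ne_zero ha hb hcomap)
  exact ⟨w, hw, fun F _ _ ρ hρ => hF F ρ hρ⟩

/-- A10: the algebraic block ALG -/
theorem algebraic_block (K : Type) [Field K] [NumberField K] (J : ℕ) :
    ∃ F : IntermediateField K (AlgebraicClosure K), FiniteDimensional K F ∧
      ∀ a b : 𝓞 K, a ≠ 0 → b ≠ 0 →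
        (∀ p : Ideal (𝓞 K), p.IsPrime → p ≠ ⊥ → a * b ∈ p → Harm J a b p) →
        ∃ X Y : F, X ^ 2 - algebraMap K F a * Y ^ 2 = algebraMap K F b := by
  classical
  let A := AlgebraicClosure K
  have hne : NeZero ((2 ^ J : ℕ) : A) := ⟨by exact_mod_cast pow_ne_zero J (two_ne_zero)⟩
  obtain ⟨ζ, hζ⟩ := HasEnoughRootsOfUnity.exists_primitiveRoot A (2 ^ J)
  let L : IntermediateField K A := IntermediateField.adjoin K {ζ}
  have hζint : IsIntegral K ζ := Algebra.IsIntegral.isIntegral ζ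
  have hLfin : FiniteDimensional K L := IntermediateField.adjoin.finiteDimensional hζint
  have : NumberField L := NumberField.of_module_finite K L
  let ζL : L := ⟨ζ, IntermediateField.mem_adjoin_simple_self K ζ⟩
  have hζL : IsPrimitiveRoot ζL (2 ^ J) := by
    refine IsPrimitiveRoot.of_map_of_injective (f := algebraMap L A) ?_ ?_
    · exact hζ
    · exact (algebraMap L A).injective
  obtain ⟨W, hW⟩ := alg K L hζL
  -- square roots
  have hsq : ∀ w : 𝓞 L, ∃ ρ : A, ρ ^ 2 = - algebraMap L A (w : L) := by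
    intro w
    obtain ⟨ρ, hρ⟩ := IsAlgClosed.exists_pow_nat_eq (- algebraMap L A (w : L)) (n := 2) (by norm_num)
    exact ⟨ρ, hρ⟩
  choose ρ hρ using hsq
  let S : Set A := insert ζ (ρ '' (W : Set (𝓞 L)))
  have hSfin : S.Finite := (W.finite_toSet.image ρ).insert ζ
  let F : IntermediateField K A := IntermediateField.adjoin K S
  have hLF : L ≤ F := by
    apply IntermediateField.adjoin_le_iff.2
    intro x hx
    rw [Set.mem_singleton_iff] at hx
    rw [hx]
    exact IntermediateField.subset_adjoin K S (Set.mem_insert _ _)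
  refine ⟨F, ?_, ?_⟩
  · have : Finite S := hSfin
    exact IntermediateField.finiteDimensional_adjoin (fun x _ => Algebra.IsIntegral.isIntegral x)
  · intro a b ha hb hharm
    obtain ⟨w, hw, hF⟩ := hW a b ha hb hharm
    let : Algebra L F := (IntermediateField.inclusion hLF).toRingHom.toAlgebra
    have hmem : ρ w ∈ F := IntermediateField.subset_adjoin K S
      (Set.mem_insert_of_mem _ ⟨w, hw, rfl⟩)
    obtain ⟨X, Y, hXY⟩ := hF F ⟨ρ w, hmem⟩ (by
      apply Subtype.ext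
      exact hρ w)
    refine ⟨X, Y, ?_⟩
    have e : ∀ x : K, algebraMap L F (algebraMap K L x) = algebraMap K F x := by
      intro x
      rfl
    rw [e, e] at hXY
    exact hXY

end Pool.Agent.Helper16.CB
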