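import Pool.Agent.Helper16.CB.Defs

/-! Frames of the algebraic block ALG of project CB. -/

namespace Pool.Agent.Helper16.CB

open NumberField

/-- A1 -/
theorem iso_of {F : Type*} [Field F] [CharZero F] {a b w ρ : F} (ha : a ≠ 0)
    {v : F × F × F} (hv : v ≠ 0) (h : Qf a b v = a * b * w) (hρ : ρ ^ 2 = - w) :
    ∃ X Y : F, X ^ 2 - a * Y ^ 2 = b := by
  sorry

/-- A2 -/
theorem loc_sub {R : Type*} [CommRing R] [IsDedekindDomain R] [Module.Free ℤ R]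
    [Module.Finite ℤ R] {q : Ideal R} (hq : q.IsPrime) (hq0 : q ≠ ⊥) {a b : R} (h : LC q a b) :
    ∃ (α β : ℕ) (G : AddSubgroup (R × R × R)), Val q a α ∧ Val q b β ∧
      G.index ≠ 0 ∧ G.index ≤ Ideal.absNorm q ^ (α + β) ∧
      ∀ v ∈ G, Qf a b v ∈ q ^ (α + β) := by
  sorry

/-- A3.  `G` is the intersection of the local subgroups of A2 over the primes dividing `a * b`
(`Subgroup.index_iInf_le`, multiplicativity of `absNorm`). -/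
theorem glob_sub {R : Type*} [CommRing R] [IsDedekindDomain R] [Module.Free ℤ R]
    [Module.Finite ℤ R] {a b : R} (ha : a ≠ 0) (hb : b ≠ 0)
    (h : ∀ q : Ideal R, q.IsPrime → q ≠ ⊥ → a * b ∈ q → LC q a b) :
    ∃ G : AddSubgroup (R × R × R), G.index ≠ 0 ∧
      G.index ≤ Ideal.absNorm (Ideal.span {a * b}) ∧
      ∀ v ∈ G, a * b ∣ Qf a b v := by
  sorry

/-- A4.  `NumberField.mixedEmbedding.exists_ne_zero_mem_ringOfIntegers_lt` with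
`f w = C * (w a) ^ (-1/2) * N(a) ^ (1/2n)`; the lower bound for `w η` comes from `1 ≤ |N η|`. -/
theorem exists_bal (L : Type*) [Field L] [NumberField L] :
    ∃ c : ℝ, 0 < c ∧ ∀ a : 𝓞 L, a ≠ 0 → ∃ η : 𝓞 L, η ≠ 0 ∧ Bal c (a * η ^ 2) := by
  sorry

/-- A5.  Pigeonhole: the box of the `(x, y, z)` with coordinates (in an integral basis) in
`[0, A]`, `[0, B]`, `[0, C]`, `A = ⌊N(ab)^(1/2n)⌋`, `B = ⌊N(b)^(1/2n)⌋`, `C = ⌊N(a)^(1/2n)⌋`, has more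
than `N(ab)` points, so two of them are congruent modulo `G`; `w = Q(v) / (ab)` is bounded at all
embeddings (`NumberField.Embeddings.finite_of_norm_le`). -/
theorem mink (L : Type*) [Field L] [NumberField L] (c : ℝ) :
    ∃ W : Finset (𝓞 L), ∀ a b : 𝓞 L, a ≠ 0 → b ≠ 0 → Bal c a → Bal c b →
      ∀ G : AddSubgroup (𝓞 L × 𝓞 L × 𝓞 L), G.index ≠ 0 →
        G.index ≤ Ideal.absNorm (Ideal.span {a * b}) → (∀ v ∈ G, a * b ∣ Qf a b v) →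
        ∃ v ∈ G, v ≠ 0 ∧ ∃ w ∈ W, Qf a b v = a * b * w := by
  sorry

/-- A6.  `(N p - 1) ∣ (N q - 1) / 2`, and `N q ≡ 1` modulo `2 ^ J`. -/
theorem sq_res {K L : Type*} [Field K] [NumberField K] [Field L] [NumberField L] [Algebra K L]
    {J : ℕ} {ζ : L} (hζ : IsPrimitiveRoot ζ (2 ^ J)) {p : Ideal (𝓞 K)} (hp : p.IsPrime)
    (hp0 : p ≠ ⊥) (hodd : Odd (Ideal.absNorm p)) (hJ : ¬ Ideal.absNorm p ≡ 1 [MOD 2 ^ J])
    {q : Ideal (𝓞 L)} (hq : q.IsPrime) (hpq : p = q.comap (algebraMap (𝓞 K) (𝓞 L)))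
    {x : 𝓞 K} (hx : x ∉ p) : ∃ γ : 𝓞 L, algebraMap (𝓞 K) (𝓞 L) x - γ ^ 2 ∈ q := by
  sorry

/-- A7a.  The valuation of elements of `K` at `q` is `e` times the valuation at `p`. -/
theorem val_up {K L : Type*} [Field K] [NumberField K] [Field L] [NumberField L] [Algebra K L]
    {q : Ideal (𝓞 L)} (hq : q.IsPrime) (hq0 : q ≠ ⊥) :
    ∃ e : ℕ, 1 ≤ e ∧
      (∀ (x : 𝓞 K) (m : ℕ), x ∈ (q.comap (algebraMap (𝓞 K) (𝓞 L))) ^ m →
        algebraMap (𝓞 K) (𝓞 L) x ∈ q ^ (e * m)) ∧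
      (∀ (x : 𝓞 K) (m : ℕ), Val (q.comap (algebraMap (𝓞 K) (𝓞 L))) x m →
        Val q (algebraMap (𝓞 K) (𝓞 L) x) (e * m)) := by
  sorry

/-- A7b.  With `π ∈ p \ p ^ 2`: `s x = π ^ (2 m) t` with `s, t ∉ p`, `s s' - 1 ∈ p`, and
`h = π ^ m γ` with `t s' - γ ^ 2 ∈ q` (A6). -/
theorem sq_val {K L : Type*} [Field K] [NumberField K] [Field L] [NumberField L] [Algebra K L]
    {J : ℕ} {ζ : L} (hζ : IsPrimitiveRoot ζ (2 ^ J)) {q : Ideal (𝓞 L)} (hq : q.IsPrime)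
    (hq0 : q ≠ ⊥)
    (hodd : Odd (Ideal.absNorm (q.comap (algebraMap (𝓞 K) (𝓞 L)))))
    (hJ : ¬ Ideal.absNorm (q.comap (algebraMap (𝓞 K) (𝓞 L))) ≡ 1 [MOD 2 ^ J])
    {x : 𝓞 K} {m e : ℕ} (hx : Val (q.comap (algebraMap (𝓞 K) (𝓞 L))) x (2 * m))
    (he : ∀ (x : 𝓞 K) (m : ℕ), x ∈ (q.comap (algebraMap (𝓞 K) (𝓞 L))) ^ m →
        algebraMap (𝓞 K) (𝓞 L) x ∈ q ^ (e * m)) (he1 : 1 ≤ e) :
    ∃ h : 𝓞 L, algebraMap (𝓞 K) (𝓞 L) x - h ^ 2 ∈ q ^ (e * (2 * m) + 1) := by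
  sorry

/-- A7 -/
theorem lc_of_harm {K L : Type*} [Field K] [NumberField K] [Field L] [NumberField L] [Algebra K L]
    {J : ℕ} {ζ : L} (hζ : IsPrimitiveRoot ζ (2 ^ J)) {a b : 𝓞 K} (ha : a ≠ 0) (hb : b ≠ 0)
    {q : Ideal (𝓞 L)} (hq : q.IsPrime) (hq0 : q ≠ ⊥)
    (h : Harm J a b (q.comap (algebraMap (𝓞 K) (𝓞 L)))) :
    LC q (algebraMap (𝓞 K) (𝓞 L) a) (algebraMap (𝓞 K) (𝓞 L) b) := by
  sorry

/-- A8 -/
theorem lc_mul {R : Type*} [CommRing R] [IsDedekindDomain R] {q : Ideal R} (hq : q.IsPrime)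
    (hq0 : q ≠ ⊥) {a b η θ : R} (hη : η ≠ 0) (hθ : θ ≠ 0) (h : LC q a b) :
    LC q (a * η ^ 2) (b * θ ^ 2) := by
  sorry

/-- A9 -/
theorem alg (K L : Type*) [Field K] [NumberField K] [Field L] [NumberField L] [Algebra K L]
    {J : ℕ} {ζ : L} (hζ : IsPrimitiveRoot ζ (2 ^ J)) :
    ∃ W : Finset L, ∀ a b : 𝓞 K, a ≠ 0 → b ≠ 0 →
      (∀ p : Ideal (𝓞 K), p.IsPrime → p ≠ ⊥ → a * b ∈ p → Harm J a b p) →
      ∃ w ∈ W, ∀ (F : Type) [Field F] [Algebra L F] (ρ : F), ρ ^ 2 = algebraMap L F w →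
        ∃ X Y : F, X ^ 2 - algebraMap L F (algebraMap K L a) * Y ^ 2 =
          algebraMap L F (algebraMap K L b) := by
  sorry

/-- A10: the algebraic block ALG -/
theorem algebraic_block (K : Type) [Field K] [NumberField K] (J : ℕ) :
    ∃ F : IntermediateField K (AlgebraicClosure K), FiniteDimensional K F ∧
      ∀ a b : 𝓞 K, a ≠ 0 → b ≠ 0 →
        (∀ p : Ideal (𝓞 K), p.IsPrime → p ≠ ⊥ → a * b ∈ p → Harm J a b p) →
        ∃ X Y : F, X ^ 2 - algebraMap K F a * Y ^ 2 = algebraMap K F b := by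
  sorry

end Pool.Agent.Helper16.CB
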