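import Pool.Agent.Helper16.CB.Defs

/-! Basic facts on `Val` (project CB). -/

namespace Pool.Agent.Helper16.CB

variable {R : Type*} [CommRing R]

theorem val_iff [IsDedekindDomain R] {q : Ideal R} {a : R} {n : ℕ} :
    Val q a n ↔ emultiplicity q (Ideal.span {a}) = n := by
  unfold Val
  rw [emultiplicity_eq_coe, Ideal.dvd_span_singleton, Ideal.dvd_span_singleton]

theorem exists_val [IsDedekindDomain R] {q : Ideal R} (hq : q.IsPrime) {a : R} (ha : a ≠ 0) :
    ∃ n, Val q a n := by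
  have hfin : FiniteMultiplicity q (Ideal.span {a}) := by
    refine FiniteMultiplicity.of_not_isUnit ?_ ?_
    · rw [Ideal.isUnit_iff]
      exact hq.ne_top
    · intro h
      apply ha
      have h' : Ideal.span {a} = ⊥ := h
      rwa [Ideal.span_singleton_eq_bot] at h'
  exact ⟨multiplicity q (Ideal.span {a}), val_iff.2 hfin.emultiplicity_eq_multiplicity⟩

theorem Val.unique [IsDedekindDomain R] {q : Ideal R} {a : R} {m n : ℕ} (h1 : Val q a m)
    (h2 : Val q a n) : m = n := by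
  rw [val_iff] at h1 h2
  rw [h1] at h2
  exact_mod_cast h2

theorem Val.mul [IsDedekindDomain R] {q : Ideal R} (hq : q.IsPrime) (hq0 : q ≠ ⊥) {a b : R}
    {m n : ℕ} (h1 : Val q a m) (h2 : Val q b n) : Val q (a * b) (m + n) := by
  rw [val_iff] at h1 h2 ⊢
  rw [← Ideal.span_singleton_mul_span_singleton,
    emultiplicity_mul (Ideal.prime_of_isPrime hq0 hq), h1, h2]
  push_cast
  rfl

theorem Val.pow [IsDedekindDomain R] {q : Ideal R} (hq : q.IsPrime) (hq0 : q ≠ ⊥) {a : R}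
    {m : ℕ} (h1 : Val q a m) (k : ℕ) : Val q (a ^ k) (k * m) := by
  induction k with
  | zero =>
    simp only [pow_zero, zero_mul]
    refine ⟨by simp, ?_⟩
    rw [zero_add, pow_one, ← Ideal.eq_top_iff_one]
    exact hq.ne_top
  | succ k ih =>
    rw [pow_succ, Nat.succ_mul]
    exact ih.mul hq hq0 h1

theorem Val.neg {q : Ideal R} {a : R} {m : ℕ} (h1 : Val q a m) : Val q (-a) m := by
  unfold Val at *
  rw [neg_mem_iff, neg_mem_iff]
  exact h1

theorem val_zero_iff {q : Ideal R} {a : R} : Val q a 0 ↔ a ∉ q := by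
  unfold Val
  simp

theorem Val.ne_zero {q : Ideal R} {a : R} {m : ℕ} (h1 : Val q a m) : a ≠ 0 := by
  rintro rfl
  exact h1.2 (zero_mem _)

theorem Val.le_of_mem {q : Ideal R} {a : R} {m n : ℕ} (h1 : Val q a m) (h : a ∈ q ^ n) :
    n ≤ m := by
  by_contra hlt
  exact h1.2 (Ideal.pow_le_pow_right (by omega) h)

theorem Val.mem_of_le {q : Ideal R} {a : R} {m n : ℕ} (h1 : Val q a m) (h : n ≤ m) :
    a ∈ q ^ n :=
  Ideal.pow_le_pow_right h h1.1

theorem Val.congr {q : Ideal R} {a b : R} {m : ℕ} (h1 : Val q a m) (h : a - b ∈ q ^ (m + 1)) :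
    Val q b m := by
  refine ⟨?_, ?_⟩
  · have h2 : a - b ∈ q ^ m := Ideal.pow_le_pow_right (by omega) h
    have := sub_mem h1.1 h2
    simpa using this
  · intro h2
    apply h1.2
    have := add_mem h h2
    simpa using this

/-- division by an element of known valuation -/
theorem Val.mem_of_mul_mem [IsDedekindDomain R] {q : Ideal R} (hq : q.IsPrime) (hq0 : q ≠ ⊥)
    {a x : R} {m n : ℕ} (h1 : Val q a m) (h : a * x ∈ q ^ (m + n)) : x ∈ q ^ n := by
  by_cases hx : x = 0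
  · rw [hx]
    exact zero_mem _
  · obtain ⟨k, hk⟩ := exists_val hq hx
    have h2 := (h1.mul hq hq0 hk).le_of_mem h
    exact hk.mem_of_le (by omega)

theorem mem_pow_of_sq_mem [IsDedekindDomain R] {q : Ideal R} (hq : q.IsPrime) (hq0 : q ≠ ⊥)
    {x : R} {n : ℕ} (h : x ^ 2 ∈ q ^ (2 * n)) : x ∈ q ^ n := by
  by_cases hx : x = 0
  · rw [hx]
    exact zero_mem _
  · obtain ⟨k, hk⟩ := exists_val hq hx
    have h2 := (hk.pow hq hq0 2).le_of_mem h
    exact hk.mem_of_le (by omega)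

theorem mul_mem_pow {q : Ideal R} {x y : R} {m n k : ℕ} (hx : x ∈ q ^ m) (hy : y ∈ q ^ n)
    (h : k ≤ m + n) : x * y ∈ q ^ k := by
  have := Ideal.mul_mem_mul hx hy
  rw [← pow_add] at this
  exact Ideal.pow_le_pow_right h this

theorem sq_mem_pow {q : Ideal R} {x : R} {m k : ℕ} (hx : x ∈ q ^ m)
    (h : k ≤ m + m) : x ^ 2 ∈ q ^ k := by
  rw [sq]
  exact mul_mem_pow hx hx h

theorem LC.symm {q : Ideal R} {a b : R} (h : LC q a b) : LC q b a := by
  obtain ⟨α, β, ha, hb, h⟩ := h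
  refine ⟨β, α, hb, ha, ?_⟩
  rcases h with h | h | h | h
  · exact Or.inl ⟨h.2, h.1⟩
  · exact Or.inr (Or.inr (Or.inl ⟨h.2.1, h.1, h.2.2⟩))
  · exact Or.inr (Or.inl ⟨h.2.1, h.1, h.2.2⟩)
  · refine Or.inr (Or.inr (Or.inr ⟨h.2.1, h.1, ?_⟩))
    obtain ⟨t, ht⟩ := h.2.2
    exact ⟨t, by rwa [mul_comm b a, add_comm β α]⟩

theorem lc_of_notMem {q : Ideal R} {a b : R} (ha : a ∉ q) (hb : b ∉ q) : LC q a b :=
  ⟨0, 0, val_zero_iff.2 ha, val_zero_iff.2 hb, Or.inl ⟨Even.zero, Even.zero⟩⟩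

end Pool.Agent.Helper16.CB
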