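import Pool.Agent.Helper4.CB.STM
import Pool.Agent.Helper16.CB.Val

/-! Project CB: from the local condition for polynomials over `K` to the local condition at the
primes of `K` for their values. -/

namespace Pool.Agent.Helper16.CB

open NumberField Polynomial
open Pool.Agent.Helper4.CB (hv)

variable {K : Type} [Field K] [NumberField K]

theorem hv_hom {Q : Type*} [CommRing Q] (φ : 𝓞 K →+* Q) (P : (𝓞 K)[X]) {u V : 𝓞 K} {s : Q}
    (hs : φ V * s = φ u) : φ (hv P u V) = φ V ^ P.natDegree * P.eval₂ φ s := by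
  unfold hv
  rw [← scaleRoots_eval₂_mul, hs, eval₂_at_apply]

theorem hv_mul (P Q : (𝓞 K)[X]) (u V : 𝓞 K) : hv (P * Q) u V = hv P u V * hv Q u V := by
  unfold hv
  rw [mul_scaleRoots_of_noZeroDivisors, eval_mul]

theorem hv_pow (P : (𝓞 K)[X]) (n : ℕ) (u V : 𝓞 K) : hv (P ^ n) u V = hv P u V ^ n := by
  unfold hv
  rw [pow_scaleRoots_of_isReduced, eval_pow]

theorem hv_C (α u V : 𝓞 K) : hv (C α) u V = α := by
  unfold hv
  rw [scaleRoots_C, eval_C]

theorem hv_prod {ι : Type*} (T : Finset ι) (P : ι → (𝓞 K)[X]) (u V : 𝓞 K) :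
    hv (∏ i ∈ T, P i) u V = ∏ i ∈ T, hv (P i) u V := by
  classical
  induction T using Finset.induction_on with
  | empty =>
    simp only [Finset.prod_empty]
    have := hv_C (1 : 𝓞 K) u V
    rwa [C_1] at this
  | insert a s ha ih => rw [Finset.prod_insert ha, Finset.prod_insert ha, hv_mul, ih]

/-- clearing denominators -/
theorem clear_den (h : K[X]) : ∃ r : ℕ, r ≠ 0 ∧ ∃ h1 : (𝓞 K)[X],
    h1.map (algebraMap (𝓞 K) K) = C (r : K) * h := by
  obtain ⟨b, hb, e⟩ := IsLocalization.integerNormalization_spec (nonZeroDivisors (𝓞 K)) h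
  have hb0 : b ≠ 0 := nonZeroDivisors.ne_zero hb
  have hdvd : b ∣ ((Ideal.absNorm (Ideal.span {b}) : ℕ) : 𝓞 K) :=
    Ideal.mem_span_singleton.1 (Ideal.absNorm_mem _)
  obtain ⟨t, ht⟩ := hdvd
  refine ⟨Ideal.absNorm (Ideal.span {b}), ?_, ?_⟩
  · rw [Ne, Ideal.absNorm_eq_zero_iff, Ideal.span_singleton_eq_bot]
    exact hb0
  · refine ⟨C t * IsLocalization.integerNormalization (nonZeroDivisors (𝓞 K)) h, ?_⟩
    rw [Polynomial.map_mul, e, map_C]
    have e2 : ((Ideal.absNorm (Ideal.span {b}) : ℕ) : K) =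
        algebraMap (𝓞 K) K b * algebraMap (𝓞 K) K t := by
      rw [← map_mul, ← ht, map_natCast]
    rw [e2, algebra_compatible_smul K b h, smul_eq_C_mul, ← mul_assoc, ← C_mul, mul_comm
      (algebraMap (𝓞 K) K t)]

omit [NumberField K] in
theorem map_inj {f g : (𝓞 K)[X]} (h : f.map (algebraMap (𝓞 K) K) = g.map (algebraMap (𝓞 K) K)) :
    f = g :=
  Polynomial.map_injective _ (FaithfulSMul.algebraMap_injective (𝓞 K) K) h

theorem exists_inv {R : Type*} [CommRing R] {p : Ideal R} (hp : p.IsMaximal) {x : R} (hx : x ∉ p)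
    (N : ℕ) : ∃ y, x * y - 1 ∈ p ^ N := by
  have h1 : IsCoprime (Ideal.span {x}) p := by
    rw [Ideal.isCoprime_iff_sup_eq]
    by_contra h
    have h2 : Ideal.span {x} ⊔ p = p := (hp.eq_of_le h le_sup_right).symm
    apply hx
    rw [← h2]
    exact Ideal.mem_sup_left (Ideal.mem_span_singleton_self x)
  have h2 : IsCoprime (Ideal.span {x}) (p ^ N) := h1.pow_right
  rw [Ideal.isCoprime_iff_exists] at h2
  obtain ⟨i, hi, j, hj, hij⟩ := h2
  obtain ⟨y, rfl⟩ := Ideal.mem_span_singleton.1 hi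
  refine ⟨y, ?_⟩
  have : x * y - 1 = - j := by
    rw [← hij]
    ring
  rw [this]
  exact neg_mem hj

theorem exists_inv' {R : Type*} [CommRing R] {p : Ideal R} (hp : p.IsMaximal) {x : R}
    (hx : x ∉ p) (N : ℕ) :
    ∃ y : R ⧸ p ^ N, Ideal.Quotient.mk (p ^ N) x * y = 1 := by
  obtain ⟨y, hy⟩ := exists_inv hp hx N
  refine ⟨Ideal.Quotient.mk _ y, ?_⟩
  rw [← map_mul, ← sub_eq_zero, ← map_one (Ideal.Quotient.mk (p ^ N)), ← map_sub,
    Ideal.Quotient.eq_zero_iff_mem]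
  exact hy

/-- squares modulo `P ^ (k + 1)` give squares modulo `p ^ N` -/
theorem sq_poly {P E : (𝓞 K)[X]} {k : ℕ} {h : K[X]}
    (hh : E.map (algebraMap (𝓞 K) K) - h ^ 2 ∈
      (Ideal.span {P.map (algebraMap (𝓞 K) K)}) ^ (k + 1)) :
    ∃ r : ℕ, r ≠ 0 ∧ ∀ (u V : 𝓞 K) (p : Ideal (𝓞 K)), p.IsMaximal → (r : 𝓞 K) ∉ p → V ∉ p →
      ∀ (w N : ℕ), N ≤ w * (k + 1) → hv P u V ∈ p ^ w → ∀ (x : 𝓞 K) (M : ℕ),
      (∀ s : 𝓞 K ⧸ p ^ N, Ideal.Quotient.mk _ V * s = Ideal.Quotient.mk _ u →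
        Ideal.Quotient.mk (p ^ N) x =
          Ideal.Quotient.mk (p ^ N) V ^ (2 * M) * E.eval₂ (Ideal.Quotient.mk (p ^ N)) s) →
      ∃ H : 𝓞 K, x - H ^ 2 ∈ p ^ N := by
  rw [Ideal.span_singleton_pow, Ideal.mem_span_singleton] at hh
  obtain ⟨g, hg⟩ := hh
  obtain ⟨r1, hr1, h1, hh1⟩ := clear_den h
  obtain ⟨r2, hr2, g1, hg1⟩ := clear_den g
  have key : C ((r1 * r2 : ℕ) : 𝓞 K) ^ 2 * E - (C (r2 : 𝓞 K) * h1) ^ 2 =
      P ^ (k + 1) * (C ((r1 ^ 2 * r2 : ℕ) : 𝓞 K) * g1) := by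
    apply map_inj
    simp only [Polynomial.map_sub, Polynomial.map_mul, Polynomial.map_pow, map_natCast,
      Polynomial.map_natCast, hh1, hg1]
    push_cast
    linear_combination ((r1 : K[X]) * (r2 : K[X])) ^ 2 * hg
  refine ⟨r1 * r2, mul_ne_zero hr1 hr2, ?_⟩
  intro u V p hp hr hV w N hN hw x M hx
  set mk := Ideal.Quotient.mk (p ^ N) with hmk
  obtain ⟨V', hV'⟩ := exists_inv' hp hV N
  obtain ⟨r', hr'⟩ := exists_inv' hp hr N
  have hs : mk V * (V' * mk u) = mk u := by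
    rw [← mul_assoc, hV', one_mul]
  set s := V' * mk u with hsdef
  have hPs : P.eval₂ mk s ^ (k + 1) = 0 := by
    have h2 := hv_hom mk P hs
    have h3 : mk (hv P u V) ^ (k + 1) = 0 := by
      rw [← map_pow, Ideal.Quotient.eq_zero_iff_mem]
      have := Ideal.pow_mem_pow hw (k + 1)
      rw [← pow_mul] at this
      exact Ideal.pow_le_pow_right hN this
    rw [h2, mul_pow, ← pow_mul] at h3
    have h4 : P.eval₂ mk s ^ (k + 1) =
        (mk V * V') ^ (P.natDegree * (k + 1)) * P.eval₂ mk s ^ (k + 1) := by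
      rw [hV', one_pow, one_mul]
    rw [h4, mul_pow]
    linear_combination V' ^ (P.natDegree * (k + 1)) * h3
  have hE : mk ((r1 * r2 : ℕ) : 𝓞 K) ^ 2 * E.eval₂ mk s =
      (mk (r2 : 𝓞 K) * h1.eval₂ mk s) ^ 2 := by
    have h2 := congrArg (Polynomial.eval₂ mk s) key
    simp only [eval₂_sub, eval₂_mul, eval₂_pow, eval₂_C] at h2
    rw [hPs, zero_mul, sub_eq_zero] at h2
    exact h2
  obtain ⟨H, hH⟩ := Ideal.Quotient.mk_surjective (I := p ^ N)
    (mk V ^ M * (r' * (mk (r2 : 𝓞 K) * h1.eval₂ mk s)))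
  refine ⟨H, ?_⟩
  rw [← Ideal.Quotient.eq_zero_iff_mem, map_sub, map_pow, hH, hx s hs, sub_eq_zero]
  have h5 : E.eval₂ mk s = (r' * (mk (r2 : 𝓞 K) * h1.eval₂ mk s)) ^ 2 := by
    rw [mul_pow, ← hE, ← mul_assoc, ← mul_pow, mul_comm r', hr', one_pow, one_mul]
  rw [h5, mul_comm 2 M, pow_mul, ← mul_pow]

/-- coprime polynomials have no common prime divisor of their values outside `r V` -/
theorem cop_poly {P P' : (𝓞 K)[X]}
    (h : IsCoprime (P.map (algebraMap (𝓞 K) K)) (P'.map (algebraMap (𝓞 K) K))) :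
    ∃ r : ℕ, r ≠ 0 ∧ ∀ (u V : 𝓞 K) (p : Ideal (𝓞 K)), p.IsMaximal → (r : 𝓞 K) ∉ p → V ∉ p →
      hv P u V ∈ p → hv P' u V ∉ p := by
  obtain ⟨x, y, hxy⟩ := h
  obtain ⟨r1, hr1, x1, hx1⟩ := clear_den x
  obtain ⟨r2, hr2, y1, hy1⟩ := clear_den y
  have key : C (r2 : 𝓞 K) * x1 * P + C (r1 : 𝓞 K) * y1 * P' = C ((r1 * r2 : ℕ) : 𝓞 K) := by
    apply map_inj
    simp only [Polynomial.map_add, Polynomial.map_mul, map_natCast, Polynomial.map_natCast,
      hx1, hy1]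
    push_cast
    linear_combination ((r1 : K[X]) * (r2 : K[X])) * hxy
  refine ⟨r1 * r2, mul_ne_zero hr1 hr2, ?_⟩
  intro u V p hp hr hV h1 h2
  obtain ⟨V'', hV''⟩ := exists_inv hp hV 1
  rw [pow_one] at hV''
  set mk := Ideal.Quotient.mk p with hmk
  have hV' : mk V * mk V'' = 1 := by
    rw [← map_mul, ← sub_eq_zero, ← map_one mk, ← map_sub, Ideal.Quotient.eq_zero_iff_mem]
    exact hV''
  have hs : mk V * (mk V'' * mk u) = mk u := by
    rw [← mul_assoc, hV', one_mul]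
  set s := mk V'' * mk u with hsdef
  have hz : ∀ Q : (𝓞 K)[X], hv Q u V ∈ p → Q.eval₂ mk s = 0 := by
    intro Q hQ
    have h3 := hv_hom mk Q hs
    rw [Ideal.Quotient.eq_zero_iff_mem.2 hQ] at h3
    have h4 : mk V'' ^ Q.natDegree * (mk V ^ Q.natDegree * Q.eval₂ mk s) = 0 := by
      rw [← h3, mul_zero]
    rw [← mul_assoc, ← mul_pow, mul_comm (mk V''), hV', one_pow, one_mul] at h4
    exact h4
  have h5 := congrArg (Polynomial.eval₂ mk s) key
  simp only [eval₂_add, eval₂_mul, eval₂_C] at h5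
  rw [hz P h1, hz P' h2, mul_zero, mul_zero, add_zero] at h5
  exact hr (Ideal.Quotient.eq_zero_iff_mem.1 h5.symm)

end Pool.Agent.Helper16.CB
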